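import Pool.Agent.L0h12.GT.RatG
import Pool.Agent.L0h12.FT.Bad

set_option autoImplicit false
set_option linter.unusedSectionVars false
set_option linter.unusedVariables false

/-!
# The number of the blocks which do not split off, with multiplicities
-/

open Module Function TensorProduct

noncomputable section

namespace Pool.Agent.L0h12.GT

open Pool.Agent.Y102 Pool.Agent.W516.DR Pool.Agent.H204R3.GP Pool.Agent.W516.KC
  Pool.Agent.H204R3.SP Pool.Agent.N192.GP Pool.Agent.L0h12.FF Pool.Agent.L0h12.FT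

attribute [local instance 100] LieRing.ofAssociativeRing

variable {g d : ℕ} (A : AbVar g) (V : DRS d)

variable {A V}

theorem Q2_projG (hs : hA A V ≤ brk (hA A V) (hA A V)) :
    (Q2 A V).map (LinearMap.proj (Sum.inl ())) = hA A V := by
  have hprj : (Q2 A V).map (LinearMap.proj (Sum.inl ())) = (LG (hh2 A V) ⊓ tw0).map (pA A) := by
    ext X
    constructor
    · rintro ⟨_, ⟨x, hx, rfl⟩, rfl⟩
      refine ⟨x, hx, ?_⟩
      have h1 : x.2 = 0 := hx.2
      rw [pA_apply, h1, zero_div, zero_smul, sub_zero]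
      rfl
    · rintro ⟨x, hx, rfl⟩
      refine ⟨x.1, ⟨x, hx, rfl⟩, ?_⟩
      have h1 : x.2 = 0 := hx.2
      rw [pA_apply, h1, zero_div, zero_smul, sub_zero]
      rfl
  rw [hprj]
  exact le_antisymm (Submodule.map_mono inf_le_left)
    (sep_tw0 (η := hh2 A V) (s := Sum.inl ()) rfl hs)

theorem R2_memG (hs : hA A V ≤ brk (hA A V) (hA A V)) (x : R2 A V) :
    (x.1 (Sum.inl ()) : Module.End ℂ (ℂ ⊗[ℚ] A.H1)) ∈ cx (hA A V) := by
  rw [← Q2_projG hs]
  have h1 := cxF_proj (𝔮 := Q2 A V) (Sum.inl ())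
  have h2 : x.1 (Sum.inl ()) ∈ (cxF (Q2 A V)).map (LinearMap.proj (Sum.inl ())) :=
    ⟨x.1, x.2, rfl⟩
  rw [h1] at h2
  exact h2

theorem R2_surjG (hs : hA A V ≤ brk (hA A V) (hA A V))
    {X : Module.End ℂ (ℂ ⊗[ℚ] A.H1)} (hX : X ∈ cx (hA A V)) :
    ∃ x : R2 A V, x.1 (Sum.inl ()) = X := by
  rw [← Q2_projG hs] at hX
  have h1 := cxF_proj (𝔮 := Q2 A V) (Sum.inl ())
  have h2 : X ∈ (cxF (Q2 A V)).map (LinearMap.proj (Sum.inl ())) := by
    rw [h1]
    exact hX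
  obtain ⟨x, hx, h3⟩ := h2
  exact ⟨⟨x, hx⟩, h3⟩

/-- The map to the Lie algebra of the abelian variety. -/
def toLG (hs : hA A V ≤ brk (hA A V) (hA A V)) (x : R2 A V) : LH (fullA A V) :=
  ⟨x.1 (Sum.inl ()), R2_memG hs x⟩

theorem toLG_lie (hs : hA A V ≤ brk (hA A V) (hA A V)) (x y : R2 A V) :
    toLG hs ⁅x, y⁆ = ⁅toLG hs x, toLG hs y⁆ := rfl

theorem toLG_add (hs : hA A V ≤ brk (hA A V) (hA A V)) (x y : R2 A V) :
    toLG hs (x + y) = toLG hs x + toLG hs y := rfl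

theorem toLG_sub (hs : hA A V ≤ brk (hA A V) (hA A V)) (x y : R2 A V) :
    toLG hs (x - y) = toLG hs x - toLG hs y := rfl

theorem toLG_smul (hs : hA A V ≤ brk (hA A V) (hA A V)) (c : ℂ) (x : R2 A V) :
    toLG hs (c • x) = c • toLG hs x := rfl

theorem toLG_surj (hs : hA A V ≤ brk (hA A V) (hA A V)) (y : LH (fullA A V)) :
    ∃ x : R2 A V, toLG hs x = y := by
  obtain ⟨x, hx⟩ := R2_surjG hs y.2
  exact ⟨x, Subtype.ext hx⟩

/-- The ideal of the elements which act trivially on a subspace. -/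
def KRG (hs : hA A V ≤ brk (hA A V) (hA A V)) {W : Submodule ℂ (ℂ ⊗[ℚ] A.H1)}
    (hW : Stable (LH (fullA A V)).toSubmodule W) : LieIdeal ℂ (R2 A V) where
  carrier := {x | ∀ w ∈ W, (toLG hs x).1 w = 0}
  zero_mem' := fun w _ => rfl
  add_mem' := fun {a b} ha hb w hw => by
    rw [toLG_add]
    change (toLG hs a).1 w + (toLG hs b).1 w = 0
    rw [ha w hw, hb w hw, add_zero]
  smul_mem' := fun c a ha w hw => by
    rw [toLG_smul]
    change c • (toLG hs a).1 w = 0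
    rw [ha w hw, smul_zero]
  lie_mem := fun {x m} hm w hw => by
    rw [toLG_lie, lie_one, hm w hw, hm _ (hW _ (toLG hs x).2 w hw), map_zero, sub_zero]

theorem mem_KRG {hs : hA A V ≤ brk (hA A V) (hA A V)}
    {W : Submodule ℂ (ℂ ⊗[ℚ] A.H1)} {hW : Stable (LH (fullA A V)).toSubmodule W} {x : R2 A V} :
    x ∈ KRG hs hW ↔ ∀ w ∈ W, (toLG hs x).1 w = 0 := Iff.rfl

variable {r : ℕ} {P : Fin r → Module.End ℚ A.H1} {p : Prin (LH (fullA A V))}
  {v : FF.JJ A P → ℂ ⊗[ℚ] A.H1} {dd : FF.JJ A P → ℕ}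
  (F : Fm p (omC A) (fun j : FF.JJ A P => EE A P j.1) v dd)

include F in
theorem val_of_idealG (hs : hA A V ≤ brk (hA A V) (hA A V))
    [LieAlgebra.IsKilling ℂ (LH (fullA A V))] (j : FF.JJ A P)
    (I : LieIdeal ℂ (R2 A V)) (hI : ∃ x ∈ I, x ∉ KRG hs (F.irr j).st) :
    ∃ π : LH (fullA A V) →ₗ[ℂ] LH (fullA A V), Cen (LH (fullA A V)) π ∧
      (∀ y, ∃ x ∈ I, toLG hs x = π y) ∧ Val p π (EE A P j.1) 1 := by
  let I' : LieIdeal ℂ (LH (fullA A V)) :=
    { carrier := {y | ∃ x ∈ I, toLG hs x = y}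
      zero_mem' := ⟨0, I.zero_mem, rfl⟩
      add_mem' := by
        rintro _ _ ⟨x, hx, rfl⟩ ⟨y, hy, rfl⟩
        exact ⟨x + y, I.add_mem hx hy, rfl⟩
      smul_mem' := by
        rintro c _ ⟨x, hx, rfl⟩
        exact ⟨c • x, I.smul_mem c hx, rfl⟩
      lie_mem := by
        rintro z _ ⟨x, hx, rfl⟩
        obtain ⟨z, rfl⟩ := toLG_surj hs z
        exact ⟨⁅z, x⁆, I.lie_mem hx, rfl⟩ }
  have hI' : ∀ y, y ∈ I' ↔ ∃ x ∈ I, toLG hs x = y := fun y => Iff.rfl
  obtain ⟨π, C, h1, h2⟩ := exists_cen I'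
  refine ⟨π, C, fun y => (hI' _).1 (h1 y), (F.val01 C j).resolve_left fun h0 => ?_⟩
  obtain ⟨x, hx, hx'⟩ := hI
  apply hx'
  intro w hw
  have h3 := val_zero (F.irr j) (F.nd j) F.sk C h0 (toLG hs x) w hw
  rwa [h2 _ ((hI' _).2 ⟨x, hx, rfl⟩)] at h3

include F in
/-- **The number of the blocks which do not split off.** -/
theorem bad_leG (hs : hA A V ≤ brk (hA A V) (hA A V))
    [LieAlgebra.IsKilling ℂ (LH (fullA A V))] {q : LH (fullA A V) →ₗ[ℂ] LH (fullA A V)}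
    (C : Cen (LH (fullA A V)) q) (hq2 : ∀ x ∈ KI (fullA A V) (idlA A V), q x = x)
    (B : Finset (FF.JJ A P)) (hB : ∀ j ∈ B, Val p q (EE A P j.1) 0)
    (hm : ∀ i ∈ B, ∀ k ∈ B, i ≠ k → Df (LH (fullA A V)) (fun j : FF.JJ A P => EE A P j.1) i k) :
    B.card ≤ d := by
  classical
  obtain ⟨S, hSB, hcard, hS⟩ := F.reps B hm
  let : LieRingModule (R2 A V) (ℂ ⊗[ℚ] (Fin (nd g d (Sum.inr ())) → ℚ)) :=
    { bracket := fun x m => x.1 (Sum.inr ()) m
      add_lie := fun x y m => rfl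
      lie_add := fun x m n => map_add _ _ _
      leibniz_lie := fun x y m => by
        change x.1 (Sum.inr ()) (y.1 (Sum.inr ()) m) = (x.1 (Sum.inr ()) * y.1 (Sum.inr ()) -
          y.1 (Sum.inr ()) * x.1 (Sum.inr ())) m + y.1 (Sum.inr ()) (x.1 (Sum.inr ()) m)
        rw [LinearMap.sub_apply, Module.End.mul_apply, Module.End.mul_apply, sub_add_cancel] }
  let : LieModule ℂ (R2 A V) (ℂ ⊗[ℚ] (Fin (nd g d (Sum.inr ())) → ℚ)) :=
    { smul_lie := fun t x m => rfl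
      lie_smul := fun t x m => map_smul _ _ _ }
  have : FiniteDimensional ℂ (R2 A V) := inferInstanceAs (FiniteDimensional ℂ (cxF (Q2 A V)))
  let K : FF.JJ A P → LieIdeal ℂ (R2 A V) := fun j => KRG hs (F.irr j).st
  have hK : ∀ j x, x ∈ K j ↔ ∀ w ∈ EE A P j.1, (toLG hs x).1 w = 0 := fun j x => Iff.rfl
  have D : DatI S K := by
    refine ⟨fun s hs' => ?_, fun s hs' I I' hI hI' => ?_⟩
    · obtain ⟨π, Cπ, h1, h0⟩ := hS s hs'
      obtain ⟨xh, hxh⟩ := toLG_surj hs (π p.h)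
      obtain ⟨xe, hxe⟩ := toLG_surj hs (π p.e)
      obtain ⟨xf, hxf⟩ := toLG_surj hs (π p.f)
      refine ⟨xh, xe, xf, fun h => ?_, ?_, ?_, ?_, fun t ht hts => ⟨?_, ?_, ?_⟩⟩
      · have h2 := (hK s xh).1 h _ (F.sb s).str.mem
        rw [hxh, h1.vh _ (F.sb s).str.mem, one_smul] at h2
        exact (F.sb s).hv0 h2
      · rw [hK]
        intro w _
        have h2 : toLG hs (⁅xh, xe⁆ - (2 : ℂ) • xe) = 0 := by
          rw [toLG_sub, toLG_lie, toLG_smul, hxh, hxe, ← Cπ.left, Cπ.right, Cπ.idem, ← Cπ.right,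
            p.he, map_smul, sub_self]
        rw [h2]
        rfl
      · rw [hK]
        intro w _
        have h2 : toLG hs (⁅xh, xf⁆ + (2 : ℂ) • xf) = 0 := by
          rw [toLG_add, toLG_lie, toLG_smul, hxh, hxf, ← Cπ.left, Cπ.right, Cπ.idem, ← Cπ.right,
            p.hf, map_smul, neg_smul, neg_add_cancel]
        rw [h2]
        rfl
      · rw [hK]
        intro w _
        have h2 : toLG hs (⁅xe, xf⁆ - xh) = 0 := by
          rw [toLG_sub, toLG_lie, hxh, hxe, hxf, ← Cπ.left, Cπ.right, Cπ.idem, ← Cπ.right,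
            p.ef, sub_self]
        rw [h2]
        rfl
      · rw [hK]
        intro w hw
        rw [hxh, (h0 t ht hts).vh w hw, zero_smul]
      · rw [hK]
        intro w hw
        rw [hxe, (h0 t ht hts).ve w hw, zero_smul]
      · rw [hK]
        intro w hw
        rw [hxf, (h0 t ht hts).vf w hw, zero_smul]
    · obtain ⟨π, Cπ, h1, h2⟩ := val_of_idealG F hs s I hI
      obtain ⟨π', Cπ', h1', h2'⟩ := val_of_idealG F hs s I' hI'
      obtain ⟨x, hx, hx2⟩ := h1 p.e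
      obtain ⟨y, hy, hy2⟩ := h1' p.f
      refine ⟨x, hx, y, hy, fun h => ?_⟩
      have B1 := F.sb s
      have h3 := (hK s _).1 h (v s) B1.str.mem
      rw [toLG_lie, lie_one, hx2, hy2, h2'.vf _ B1.str.mem, h2.ve _ B1.str.mem, one_smul, one_smul,
        h2.ve _ (B1.mf _ B1.str.mem), B1.str.ev, map_zero, sub_zero, one_smul] at h3
      have h4 : p.oe (p.of (v s)) = p.oh (v s) := by
        rw [B1.sl.e_f, B1.str.ev, map_zero, zero_add]
      rw [h4] at h3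
      exact B1.hv0 h3
  have h1 := datI_dim (L := R2 A V) (K := K) (M := ℂ ⊗[ℚ] (Fin (nd g d (Sum.inr ())) → ℚ))
    (finrank ℂ (ℂ ⊗[ℚ] (Fin (nd g d (Sum.inr ())) → ℚ))) le_rfl D fun x hx s hs' => by
      rw [hK]
      intro w hw
      have h2 : x.1 (Sum.inr ()) = 0 := LinearMap.ext fun m => hx m
      have h3 := R2_ker x h2
      have h4 : toLG hs x ∈ KI (fullA A V) (idlA A V) := h3
      have h5 := val_zero (F.irr s) (F.nd s) F.sk C (hB s (hSB hs')) (toLG hs x) w hw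
      rwa [hq2 _ h4] at h5
  rw [Module.finrank_baseChange, Module.finrank_fin_fun] at h1
  have h2 : nd g d (Sum.inr ()) = d := rfl
  omega

end Pool.Agent.L0h12.GT
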