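import Pool.Agent.L0h12.GT.Fm
import Pool.Agent.L0h12.FT.Count

set_option autoImplicit false
set_option linter.unusedSectionVars false
set_option linter.unusedVariables false
set_option linter.unusedSimpArgs false

/-!
# The blocks for full subalgebras, with multiplicities
-/

open Module Function Polynomial TensorProduct

noncomputable section

namespace Pool.Agent.L0h12.GT

open Pool.Agent.Y102 Pool.Agent.W516.DR Pool.Agent.H204R3.GP Pool.Agent.W516.KC
  Pool.Agent.H204R3.SP Pool.Agent.L0h12.FF Pool.Agent.L0h12.FT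
open Pool.Agent.N192.GP (brk Idl)

attribute [local instance 100] LieRing.ofAssociativeRing

variable {g : ℕ} {A : AbVar g} {𝔥 𝔫 : Submodule ℚ (Module.End ℚ A.H1)} {r : ℕ}
  {P : Fin r → Module.End ℚ A.H1}

theorem stG (hF : A.Full 𝔥) (χ : ZZ A P → ℂ) : Stable (LH hF).toSubmodule (EE A P χ) := by
  intro X hX u hu
  rw [mem_EE] at hu ⊢
  intro R
  have h1 : (R : Module.End ℚ A.H1).baseChange ℂ * X = X * (R : Module.End ℚ A.H1).baseChange ℂ := by
    refine cx_comm (S := 𝔥) (fun Y hY => ?_) X hX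
    rw [← bc_mul, ← bc_mul]
    congr 1
    exact (H_comm hF hY R.2.1).symm
  have h2 := LinearMap.congr_fun h1 u
  rw [Module.End.mul_apply, Module.End.mul_apply, hu R, map_smul] at h2
  exact h2

/-- Stable subspaces for a full subalgebra are stable for the whole Lie algebra. -/
theorem stable_LC (hF : A.Full 𝔥) {U : Submodule ℂ (ℂ ⊗[ℚ] A.H1)}
    (hU : Stable (LH hF).toSubmodule U) : Stable (LC A).toSubmodule U := by
  intro X hX u hu
  refine cx_memH hF (T := X) (fun Q hQ => ?_) U hU u hu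
  refine (cx_comm (S := A.LA) (fun Y hY => ?_) X hX).symm
  rw [← bc_mul, ← bc_mul]
  congr 1
  exact (hQ Y hY).symm

theorem irrG (hF : A.Full 𝔥) (H : Sys A P) {χ : ZZ A P → ℂ} (hne : EE A P χ ≠ ⊥) :
    Irr (LH hF).toSubmodule (EE A P χ) :=
  ⟨hne, stG hF χ, fun U hU hst => (H.EE_irr hne).irr U hU (stable_LC hF hst)⟩

/-- The family of the blocks. -/
theorem fmG (hF : A.Full 𝔥) (H : Sys A P) (hb : ∀ j : FF.JJ A P, finrank ℂ (EE A P j.1) ≤ 4) :
    ∃ (_ : LieAlgebra.IsKilling ℂ (LH hF)) (p : Prin (LH hF)) (v : FF.JJ A P → ℂ ⊗[ℚ] A.H1)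
      (d : FF.JJ A P → ℕ), Fm p (omC A) (fun j : FF.JJ A P => EE A P j.1) v d := by
  have hsk : ∀ X ∈ LH hF, Skew (omC A) X := fun X hX => skewH hF hX
  have hW : ∀ j : FF.JJ A P, Irr (LH hF).toSubmodule (EE A P j.1) := fun j => irrG hF H j.2
  have hN : ∀ j : FF.JJ A P, Nd (omC A) (EE A P j.1) := fun j => H.EE_nd j.1
  have hK : LieAlgebra.IsKilling ℂ (LH hF) := isKilling hW hN H.iSup_JJ hsk
  obtain ⟨p⟩ : Nonempty (Prin (LH hF)) := exists_prin (LH hF)
  choose v d hB hd using fun j : FF.JJ A P => exists_sb p (omC_alt A) hsk (hW j) (hN j) (hb j)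
  exact ⟨hK, p, v, d, omC_alt A, hsk, hB, hd, hW, hN, H.orth_JJ, H.iSup_JJ⟩

/-- The Lie algebra is perfect. -/
theorem perfG (hF : A.Full 𝔥) (H : Sys A P) : 𝔥 ≤ brk 𝔥 𝔥 := by
  intro X hX
  obtain ⟨Z, hZ, D, hD, h1, hc⟩ := hF.dec hX
  have hZE : Z ∈ A.EA := commH hF fun Y hY => (hc Y hY).symm
  have hZP : ∀ i, Z * P i = P i * Z := fun i => H_comm hF hZ (H.mem i)
  have hZ0 : Z = 0 := by
    refine LinearMap.ext fun u => ?_
    apply A.om_nondeg
    intro w
    have h2 := A.NA_skew (hF.le hZ) u w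
    have h3 := H.real Z hZE hZP u w
    have h4 : (2 : ℚ) * A.om (Z u) w = 0 := by linear_combination h2 + h3
    exact (mul_eq_zero.1 h4).resolve_left two_ne_zero
  rw [h1, hZ0, zero_add]
  exact hD

/-- If the homology is generated by `n` elements over the commutant of `P`, the blocks are of
dimension at most `n`. -/
theorem finrank_leG (H : Sys A P) {n : ℕ} (x : Fin n → A.H1)
    (hx : Submodule.span ℚ {y | ∃ Q ∈ ZZ A P, ∃ k, y = Q (x k)} = ⊤) (j : FF.JJ A P) :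
    finrank ℂ (EE A P j.1) ≤ n := by
  classical
  let C : Submodule ℂ (ℂ ⊗[ℚ] A.H1) := ⨆ i ≠ j, EE A P i.1
  have hd : Disjoint (EE A P j.1) C := H.indep_JJ j
  have hinj : Injective ((C.mkQ).comp (EE A P j.1).subtype) := by
    rw [← LinearMap.ker_eq_bot, LinearMap.ker_comp, Submodule.ker_mkQ]
    rw [eq_bot_iff]
    intro u hu
    have h1 : (u : ℂ ⊗[ℚ] A.H1) ∈ EE A P j.1 ⊓ C := ⟨u.2, hu⟩
    rw [hd.eq_bot] at h1
    exact Subtype.ext ((Submodule.mem_bot ℂ).1 h1)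
  have hC : ∀ (Q : ZZ A P) (z : ℂ ⊗[ℚ] A.H1),
      C.mkQ ((Q : Module.End ℚ A.H1).baseChange ℂ z) = j.1 Q • C.mkQ z := by
    intro Q z
    have hz : z ∈ ⨆ i : FF.JJ A P, EE A P i.1 := by rw [H.iSup_JJ]; trivial
    induction hz using Submodule.iSup_induction' with
    | mem i z hz =>
      rw [mem_EE.1 hz Q]
      by_cases hij : i = j
      · rw [hij, map_smul]
      · have h1 : z ∈ C := Submodule.mem_iSup_of_mem i (Submodule.mem_iSup_of_mem hij hz)
        have h2 : C.mkQ z = 0 := (Submodule.Quotient.mk_eq_zero C).2 h1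
        rw [map_smul, h2, smul_zero, smul_zero]
    | zero => simp
    | add a b _ _ ha hb => rw [map_add, map_add, ha, hb, map_add, smul_add]
  have hs : (⊤ : Submodule ℂ ((ℂ ⊗[ℚ] A.H1) ⧸ C)) ≤
      Submodule.span ℂ (Set.range fun k => C.mkQ ((1 : ℂ) ⊗ₜ[ℚ] x k)) := by
    intro q hq
    obtain ⟨z, rfl⟩ := C.mkQ_surjective q
    clear hq
    induction z using TensorProduct.induction_on with
    | zero => rw [map_zero]; exact Submodule.zero_mem _
    | add a b ha hb => rw [map_add]; exact Submodule.add_mem _ ha hb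
    | tmul c y =>
      have h1 : c ⊗ₜ[ℚ] y = c • ((1 : ℂ) ⊗ₜ[ℚ] y) := by
        rw [TensorProduct.smul_tmul', smul_eq_mul, mul_one]
      rw [h1, map_smul]
      refine Submodule.smul_mem _ _ ?_
      clear h1
      have hy : y ∈ Submodule.span ℚ {y | ∃ Q ∈ ZZ A P, ∃ k, y = Q (x k)} := by rw [hx]; trivial
      induction hy using Submodule.span_induction with
      | mem y hy =>
        obtain ⟨Q, hQ, k, rfl⟩ := hy
        have h2 := hC ⟨Q, hQ⟩ ((1 : ℂ) ⊗ₜ[ℚ] x k)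
        rw [LinearMap.baseChange_tmul] at h2
        rw [h2]
        exact Submodule.smul_mem _ _ (Submodule.subset_span ⟨k, rfl⟩)
      | zero => rw [TensorProduct.tmul_zero, map_zero]; exact Submodule.zero_mem _
      | add a b _ _ ha hb =>
        rw [TensorProduct.tmul_add, map_add]
        exact Submodule.add_mem _ ha hb
      | smul c a _ ha =>
        rw [TensorProduct.tmul_smul]
        have h3 : c • ((1 : ℂ) ⊗ₜ[ℚ] a) = (c : ℂ) • ((1 : ℂ) ⊗ₜ[ℚ] a) :=
          (Rat.cast_smul_eq_qsmul ℂ c _).symm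
        rw [h3, map_smul]
        exact Submodule.smul_mem _ _ ha
  calc finrank ℂ (EE A P j.1) ≤ finrank ℂ ((ℂ ⊗[ℚ] A.H1) ⧸ C) :=
        LinearMap.finrank_le_finrank_of_injective hinj
    _ = finrank ℂ (⊤ : Submodule ℂ ((ℂ ⊗[ℚ] A.H1) ⧸ C)) := (finrank_top ℂ _).symm
    _ ≤ finrank ℂ (Submodule.span ℂ (Set.range fun k => C.mkQ ((1 : ℂ) ⊗ₜ[ℚ] x k))) :=
        Submodule.finrank_mono hs
    _ ≤ Fintype.card (Fin n) := finrank_range_le_card _
    _ = n := Fintype.card_fin n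

/-- The centre of the algebra of the endomorphisms. -/
def CE (A : AbVar g) : Submodule ℚ (Module.End ℚ A.H1) where
  carrier := {R | R ∈ A.EA ∧ ∀ Q ∈ A.EA, R * Q = Q * R}
  zero_mem' := ⟨A.EA.zero_mem, fun Q _ => by rw [zero_mul, mul_zero]⟩
  add_mem' := fun {a b} ha hb => ⟨A.EA.add_mem ha.1 hb.1, fun Q hQ => by
    rw [add_mul, mul_add, ha.2 Q hQ, hb.2 Q hQ]⟩
  smul_mem' := fun c a ha => ⟨A.EA.smul_mem c ha.1, fun Q hQ => by
    rw [smul_mul_assoc, mul_smul_comm, ha.2 Q hQ]⟩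

theorem CE_ZZ (H : Sys A P) {R : Module.End ℚ A.H1} (hR : R ∈ CE A) : R ∈ ZZ A P :=
  ⟨hR.1, fun i => hR.2 _ (H.mem i)⟩

/-- Blocks with different central characters are not isomorphic. -/
theorem dfG (hF : A.Full 𝔥) (H : Sys A P) {i k : FF.JJ A P} {R : Module.End ℚ A.H1}
    (hR : R ∈ CE A) (hne : i.1 ⟨R, CE_ZZ H hR⟩ ≠ k.1 ⟨R, CE_ZZ H hR⟩) :
    Df (LH hF) (fun j : FF.JJ A P => EE A P j.1) i k := by
  intro U hU w hw w' hw' hww
  set a := i.1 ⟨R, CE_ZZ H hR⟩ with ha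
  set b := k.1 ⟨R, CE_ZZ H hR⟩ with hb
  let T : Module.End ℂ (ℂ ⊗[ℚ] A.H1) :=
    (a - b)⁻¹ • (R.baseChange ℂ - b • (1 : Module.End ℂ _))
  have hT : ∀ x, T x = (a - b)⁻¹ • (R.baseChange ℂ x - b • x) := fun _ => rfl
  have h1 : T (w + w') ∈ U := by
    refine cx_memH hF (T := T) (fun Q hQ => ?_) U hU _ hww
    have h2 : R.baseChange ℂ * Q.baseChange ℂ = Q.baseChange ℂ * R.baseChange ℂ := by
      rw [← bc_mul, ← bc_mul, hR.2 Q hQ]
    refine LinearMap.ext fun x => ?_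
    have h3 := LinearMap.congr_fun h2 x
    rw [Module.End.mul_apply, Module.End.mul_apply] at h3
    rw [Module.End.mul_apply, Module.End.mul_apply, hT, hT, h3, map_smul, map_sub, map_smul]
  have e1 : R.baseChange ℂ w = a • w := mem_EE.1 hw ⟨R, CE_ZZ H hR⟩
  have e2 : R.baseChange ℂ w' = b • w' := mem_EE.1 hw' ⟨R, CE_ZZ H hR⟩
  have h2 : T (w + w') = w := by
    rw [hT, map_add, e1, e2, smul_add, add_sub_add_comm, sub_self, add_zero,
      ← sub_smul, smul_smul, inv_mul_cancel₀ (sub_ne_zero.2 hne), one_smul]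
  rwa [h2] at h1

theorem ext_G (H : Sys A P) {X Y : Module.End ℂ (ℂ ⊗[ℚ] A.H1)}
    (h : ∀ j : FF.JJ A P, ∀ x ∈ EE A P j.1, X x = Y x) : X = Y := by
  refine LinearMap.ext fun z => ?_
  have hz : z ∈ ⨆ i : FF.JJ A P, EE A P i.1 := by rw [H.iSup_JJ]; trivial
  induction hz using Submodule.iSup_induction' with
  | mem i z hz => exact h i z hz
  | zero => rw [map_zero, map_zero]
  | add a b _ _ ha hb => rw [map_add, map_add, ha, hb]

/-- Multilinear forms in an odd number of variables which are annihilated are zero. -/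
theorem oddG (hF : A.Full 𝔥) (H : Sys A P) (hb : ∀ j : FF.JJ A P, finrank ℂ (EE A P j.1) ≤ 4)
    {κ : Type} [Fintype κ] [DecidableEq κ] (hodd : Odd (Fintype.card κ))
    (φ : MultilinearMap ℚ (fun _ : κ => A.H1) ℚ) (hφ : ∀ X ∈ 𝔥, Kills X φ) : φ = 0 := by
  classical
  obtain ⟨hK, p, v, d, F⟩ := fmG hF H hb
  let b : Basis (Fin (2 * g)) ℚ A.H1 := Pi.basisFun ℚ (Fin (2 * g))
  let Φ := bcm (Ω := ℂ) b φ
  have hinv : Kills p.oh Φ := by
    refine (kills_bcm_iff b φ p.oh).2 fun lam => ?_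
    exact hφ _ (cmp_of_ext 𝔥 p.h.2 lam)
  have h1 := F.odd_zero hodd Φ hinv
  refine MultilinearMap.ext fun u => ?_
  have h2 : algebraMap ℚ ℂ (φ u) = Φ (fun l => (1 : ℂ) ⊗ₜ[ℚ] u l) :=
    (bcm_one (Ω := ℂ) b φ u).symm
  rw [h1, zero_apply] at h2
  rw [zero_apply]
  exact (map_eq_zero_iff _ (algebraMap ℚ ℂ).injective).1 h2

end Pool.Agent.L0h12.GT
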