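import Pool.Agent.L0h12.GT.FrG
import Pool.Agent.L0h12.FT.Fin2

set_option autoImplicit false
set_option linter.unusedSectionVars false
set_option linter.unusedVariables false

/-!
# The splitting theorem for tensor classes, with multiplicities
-/

open Module Function TensorProduct

noncomputable section

namespace Pool.Agent.L0h12.GT

open Pool.Agent.Y102 Pool.Agent.W516.DR Pool.Agent.H204R3.GP Pool.Agent.W516.KC
  Pool.Agent.H204R3.SP Pool.Agent.N192.GP Pool.Agent.L0h12.FF Pool.Agent.L0h12.FT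

variable {g d : ℕ} {A : AbVar g} {V : DRS d} {κ κ' : Type} [Fintype κ] [DecidableEq κ]
  [Fintype κ'] [DecidableEq κ'] {w : ℤ}

/-- Structures of CM type. -/
theorem full_of_cmG (hperf : hA A V ≤ brk (hA A V) (hA A V))
    (h1 : ∀ X Y : Module.End ℚ (Fin d → ℚ),
      (∀ P, IsDeRhamBettiEnd QBar V.eta P → X * P = P * X) →
      (∀ P, IsDeRhamBettiEnd QBar V.eta P → Y * P = P * Y) → X * Y = Y * X) :
    hA A V ≤ nA A V := by
  have key : ∀ x ∈ LG (hh2 A V), ∀ P : Module.End ℚ (Fin d → ℚ),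
      IsDeRhamBettiEnd QBar V.eta P → xV x * P = P * xV x := by
    intro x hx P hP
    have hP' : IsDeRhamBettiEnd QBar (hh2 A V (Sum.inr ()) :
        Fin d → ((Fin d → ℚ) →ₗ[ℚ] ℂ)) P := by
      change IsDeRhamBettiEnd QBar (V.basis : Fin d → ((Fin d → ℚ) →ₗ[ℚ] ℂ)) P
      rw [V.coe_basis]
      exact hP
    let P' : Module.End ℚ (Fin (nd g d (Sum.inr ())) → ℚ) := P
    have h2 : LG (hh2 A V) ≤ cent (Sum.inr ()) P' :=
      LG_le _ (cent_br (Sum.inr ()) P') fun D lam => NN_comm_end (hh2 A V (Sum.inr ())) hP' D lam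
    exact h2 hx
  have h2 : hA A V ≤ (LG (hh2 A V) ⊓ at0 (Sum.inr ())).map (pr (Sum.inl ())) :=
    sep_comm (η := hh2 A V) (s := Sum.inl ()) rfl hperf (t := Sum.inr ())
      fun x hx y hy => h1 _ _ (key x hx) (key y hy)
  exact step (pr_hm (Sum.inl ()) (LG (hh2 A V))) hperf inf_le_left inf_le_left h2 h2
    fun x hx y hy => ⟨(idl_at0 (hh2 A V) (Sum.inr ())).2 x hx.1 y hy, br_snd x y⟩

/-- The multilinear forms which are annihilated by the Lie algebra and supported on `e`. -/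
def MK (A : AbVar g) (κ : Type) [Fintype κ] [DecidableEq κ]
    (𝔥 : Submodule ℚ (Module.End ℚ A.H1)) (e : Module.End ℚ A.H1) :
    Submodule ℚ (MultilinearMap ℚ (fun _ : κ => A.H1) ℚ) where
  carrier := {ψ | (∀ X ∈ 𝔥, Kills X ψ) ∧ ∀ u, ψ (fun l => e (u l)) = ψ u}
  zero_mem' := ⟨fun X _ v => Finset.sum_eq_zero fun _ _ => rfl, fun _ => rfl⟩
  add_mem' := by
    rintro a b ⟨h2, h3⟩ ⟨h4, h5⟩
    refine ⟨fun X hX v => ?_, fun u => ?_⟩
    · have e1 := h2 X hX v
      have e2 := h4 X hX v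
      simp only [add_apply, Finset.sum_add_distrib]
      rw [e1, e2, add_zero]
    · rw [add_apply, add_apply, h3, h5]
  smul_mem' := by
    rintro c a ⟨h2, h3⟩
    refine ⟨fun X hX v => ?_, fun u => ?_⟩
    · have e1 := h2 X hX v
      simp only [smul_apply, ← Finset.smul_sum]
      rw [e1, smul_zero]
    · rw [smul_apply, smul_apply, h3]

/-- The forms annihilated by the Lie algebra are de Rham-Betti classes. -/
theorem tw_MK {e : Module.End ℚ A.H1} {ψ : MultilinearMap ℚ (fun _ : κ => A.H1) ℚ}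
    (hψ : ψ ∈ MK A κ (hA A V) e) {m : ℕ} (hm : Fintype.card κ = 2 * m) : IsTw A.dR m ψ := by
  classical
  have h1 : IsTw (dRT A V) m (ψ.compLinearMap fun _ => LinearMap.fst ℚ A.H1 (Fin d → ℚ)) := by
    refine tw_of_acts2 fun D lam z => ?_
    have hℓ := gn_mem_LG (hh2 A V) D lam
    have h2 := hψ.1 (pA A (gn (hh2 A V) D lam)) ⟨_, hℓ, rfl⟩ fun l => (z l).1
    have h3 : ∀ l, ψ (update (fun l => (z l).1) l (pA A (gn (hh2 A V) D lam) (z l).1)) =
        ψ (update (fun l => (z l).1) l (xA A (gn (hh2 A V) D lam) (z l).1)) -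
          (gn (hh2 A V) D lam).2 / 2 * ψ fun l => (z l).1 := by
      intro l
      have h4 : pA A (gn (hh2 A V) D lam) (z l).1 = xA A (gn (hh2 A V) D lam) (z l).1 +
            (-((gn (hh2 A V) D lam).2 / 2)) • (z l).1 := by
        rw [pA_apply, neg_smul, ← sub_eq_add_neg]
        rfl
      rw [h4, ψ.map_update_add, ψ.map_update_smul, update_eq_self]
      change ψ _ + _ * ψ _ = _
      ring
    rw [Finset.sum_congr rfl fun l _ => h3 l, Finset.sum_sub_distrib, Finset.sum_const,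
      Finset.card_univ, nsmul_eq_mul, hm] at h2
    have h6 : (gn (hh2 A V) D lam).2 = tt D lam := rfl
    rw [h6] at h2
    have h7 : ∀ l, (ψ.compLinearMap fun _ => LinearMap.fst ℚ A.H1 (Fin d → ℚ))
        (update z l (actT A (gn (hh2 A V) D lam) (z l))) =
        ψ (update (fun l => (z l).1) l (xA A (gn (hh2 A V) D lam) (z l).1)) := by
      intro l
      rw [MultilinearMap.compLinearMap_apply]
      congr 1
      funext l'
      by_cases h3 : l' = l
      · subst h3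
        rw [update_self, update_self]
        rfl
      · rw [update_of_ne h3, update_of_ne h3]
        rfl
    rw [Finset.sum_congr rfl fun l _ => h7 l]
    have h8 : (ψ.compLinearMap fun _ => LinearMap.fst ℚ A.H1 (Fin d → ℚ)) z =
        ψ fun l => (z l).1 := rfl
    rw [h8]
    push_cast at h2 ⊢
    linear_combination h2
  obtain ⟨a, ha⟩ := h1
  refine isTw_of_sum (P := κ → Fin g ⊕ Fin g) (fun p => p) (fun p => a fun l => Sum.inl (p l))
    fun u => ?_
  have h2 := ha fun l => (u l, 0)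
  have h3 : (ψ.compLinearMap fun _ => LinearMap.fst ℚ A.H1 (Fin d → ℚ)) (fun l => (u l, 0)) =
      ψ u := rfl
  rw [h3] at h2
  rw [h2]
  symm
  refine Fintype.sum_of_injective (fun (J : κ → Fin g ⊕ Fin g) l => Sum.inl (J l))
    (fun J J' h => funext fun l => Sum.inl_injective (congrFun h l)) _ _ (fun J hJ => ?_)
    fun J => rfl
  obtain ⟨l, hl⟩ : ∃ l, ∃ j, J l = Sum.inr j := by
    by_contra hcon
    push Not at hcon
    apply hJ
    have h4 : ∀ l, ∃ i, Sum.inl i = J l := by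
      intro l
      rcases h5 : J l with i | j
      · exact ⟨i, rfl⟩
      · exact absurd h5 (hcon l j)
    choose I hI using h4
    exact ⟨I, funext hI⟩
  obtain ⟨j, hj⟩ := hl
  rw [Finset.prod_eq_zero (Finset.mem_univ l), mul_zero]
  rw [hj]
  change V.eta j 0 = 0
  rw [map_zero]

section

variable {φ : MultilinearMap ℚ (fun _ : κ => A.H1)
    (MultilinearMap ℚ (fun _ : κ' => A.H1 × (Fin d → ℚ)) ℚ)}
  {e : Module.End ℚ A.H1}

/-- **Splitting of tensor classes.** -/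
theorem split_tensor (h : Mix2 A V w φ) (he : e ∈ A.EA) (hee : e * e = e)
    (hh : ∀ X ∈ hA A V, X * e ∈ nA A V) (hn : ∀ N ∈ nA A V, N * e = N)
    (hφ : ∀ u z, φ (fun l => e (u l)) (fun l => cut e (z l)) = φ u z) {m : ℕ}
    (hm : Fintype.card κ = 2 * m) :
    ∃ (K : ℕ) (ψ : Fin K → MultilinearMap ℚ (fun _ : κ => A.H1) ℚ)
      (χ : Fin K → MultilinearMap ℚ (fun _ : κ' => A.H1 × (Fin d → ℚ)) ℚ),
      (∀ k, IsTw A.dR m (ψ k)) ∧ (∀ k u, ψ k (fun l => e (u l)) = ψ k u) ∧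
      (∀ k, IsTw (dRT A V) (w - m) (χ k)) ∧
      (∀ k z, χ k (fun l => cut e (z l)) = χ k z) ∧ ∀ u z, φ u z = ∑ k, ψ k u * χ k z := by
  classical
  obtain ⟨K, f, y, hf⟩ := exists_pts (M := MK A κ (hA A V) e) (X := κ → A.H1)
    (fun u => { toFun := fun ψ => ψ.1 u, map_add' := fun _ _ => rfl, map_smul' := fun _ _ => rfl })
    fun ψ hψ => Subtype.ext (MultilinearMap.ext fun u => hψ u)
  have hcard : (Fintype.card κ : ℤ) = 2 * (m : ℤ) := by
    rw [hm]
    push_cast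
    rfl
  refine ⟨K, fun k => (f k).1, fun k => φ (y k), fun k => tw_MK (f k).2 hm, fun k => (f k).2.2,
    fun k => v_acts2 h he hee hh hn hφ hcard (y k), fun k z => inv_cut hee hφ (y k) z,
    fun u z => ?_⟩
  have h1 : fix2 φ z ∈ MK A κ (hA A V) e :=
    ⟨fun X hX u => h_acts2 h he hee hh hn hφ hX u z, fun u => inv_e hee hφ u z⟩
  have h2 := congrArg Subtype.val (hf ⟨fix2 φ z, h1⟩)
  have h3 := congrArg (fun ψ : MultilinearMap ℚ (fun _ : κ => A.H1) ℚ => ψ u) h2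
  change φ u z = _ at h3
  rw [h3, Submodule.coe_sum]
  rw [sum_apply]
  refine Finset.sum_congr rfl fun k _ => ?_
  exact mul_comm (φ (y k) z) ((f k).1 u)

/-- The splitting of alternating classes if all endomorphisms are symmetric. -/
theorem split_alt (hφ : Mix2 A V w φ) (he : e ∈ A.EA) (hee : e * e = e)
    (hh : ∀ X ∈ hA A V, X * e ∈ nA A V) (hn : ∀ N ∈ nA A V, N * e = N)
    (hinv : ∀ u z, φ (fun l => e (u l)) (fun l => cut e (z l)) = φ u z)
    (halt : ∀ u i j, u i = u j → i ≠ j → φ u = 0)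
    (hs : ∀ Q ∈ A.EA, ∀ u v, A.om (Q u) v = A.om u (Q v))
    (x : Fin 4 → A.H1) (hx : Submodule.span ℚ {y | ∃ Q ∈ A.EA, ∃ k, y = Q (x k)} = ⊤)
    {m : ℕ} (E : Fin m × Fin 2 ≃ κ) :
    ∃ (K : ℕ) (ψ : Fin K → A.H1 [⋀^κ]→ₗ[ℚ] ℚ)
      (χ : Fin K → MultilinearMap ℚ (fun _ : κ' => A.H1 × (Fin d → ℚ)) ℚ),
      (∀ k, ψ k ∈ Submodule.span ℚ {ψ' : A.H1 [⋀^κ]→ₗ[ℚ] ℚ |
        ∃ b : Fin m → A.H1 →ₗ[ℚ] A.H1 →ₗ[ℚ] ℚ,
        (∀ l, IsHodgeBilinear (A.per : A.H1 →+ (Fin g → ℂ)) (b l) ∧ ∀ u, b l u u = 0) ∧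
        ∀ v, ψ' v = ∑ σ : Equiv.Perm κ, ((Equiv.Perm.sign σ : ℤ) : ℚ) *
          ∏ l, b l (v (σ (E (l, 0)))) (v (σ (E (l, 1))))}) ∧
      (∀ k, IsTw (dRT A V) (w - m) (χ k)) ∧
      (∀ k z, χ k (fun l => cut e (z l)) = χ k z) ∧ ∀ u z, φ u z = ∑ k, ψ k u * χ k z := by
  classical
  obtain ⟨K, f, y, hf⟩ := exists_pts (M := AK A κ (hA A V)) (X := κ → A.H1)
    (fun u => { toFun := fun ψ => ψ.1 u, map_add' := fun _ _ => rfl, map_smul' := fun _ _ => rfl })
    fun ψ hψ => Subtype.ext (MultilinearMap.ext fun u => hψ u)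
  have hcard : (Fintype.card κ : ℤ) = 2 * (m : ℤ) := by
    rw [← Fintype.card_congr E, Fintype.card_prod, Fintype.card_fin, Fintype.card_fin]
    push_cast
    ring
  refine ⟨K, fun k => toAlt (f k), fun k => φ (y k), fun k =>
    ak_lef (fullA A V) hs x hx (f k) E, fun k => v_acts2 hφ he hee hh hn hinv hcard (y k),
    fun k z => inv_cut hee hinv (y k) z, fun u z => ?_⟩
  have h1 : fix2 φ z ∈ AK A κ (hA A V) :=
    ⟨fun u i j hij hne => by rw [fix2_apply, halt u i j hij hne]; rfl,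
      fun X hX u => h_acts2 hφ he hee hh hn hinv hX u z⟩
  have h2 := congrArg Subtype.val (hf ⟨fix2 φ z, h1⟩)
  have h3 := congrArg (fun ψ : MultilinearMap ℚ (fun _ : κ => A.H1) ℚ => ψ u) h2
  change φ u z = _ at h3
  rw [h3, Submodule.coe_sum]
  rw [sum_apply]
  refine Finset.sum_congr rfl fun k _ => ?_
  exact mul_comm (φ (y k) z) ((f k).1 u)

theorem odd_tensor {r : ℕ} {P : Fin r → Module.End ℚ A.H1} (H : Sys A P) (x : Fin 4 → A.H1)
    (hx : Submodule.span ℚ {y | ∃ Q ∈ ZZ A P, ∃ k, y = Q (x k)} = ⊤)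
    (h : Mix2 A V w φ) (he : e ∈ A.EA) (hee : e * e = e)
    (hh : ∀ X ∈ hA A V, X * e ∈ nA A V) (hn : ∀ N ∈ nA A V, N * e = N)
    (hφ : ∀ u z, φ (fun l => e (u l)) (fun l => cut e (z l)) = φ u z)
    (hodd : Odd (Fintype.card κ)) : φ = 0 := by
  refine MultilinearMap.ext fun u => MultilinearMap.ext fun z => ?_
  have h2 := oddG (fullA A V) H (fun j => finrank_leG H x hx j) hodd (fix2 φ z)
    fun X hX u => h_acts2 h he hee hh hn hφ hX u z
  exact congrArg (fun ψ : MultilinearMap ℚ (fun _ : κ => A.H1) ℚ => ψ u) h2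

end

end Pool.Agent.L0h12.GT
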