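import Pool.Agent.L0h12.FF.Sep

set_option autoImplicit false
set_option linter.unusedSectionVars false
set_option linter.unusedVariables false

/-!
# Families of strings, possibly with multiplicities
-/

open Module Function

noncomputable section

namespace Pool.Agent.L0h12.GT

open Pool.Agent.L0h12.FF

attribute [local instance 100] LieRing.ofAssociativeRing

variable {V : Type} [AddCommGroup V] [Module ℂ V] [FiniteDimensional ℂ V]
  {L : LieSubalgebra ℂ (Module.End ℂ V)} {ω : V →ₗ[ℂ] V →ₗ[ℂ] ℂ}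

/-- The blocks: pairwise orthogonal strings. -/
structure Fm (P : Prin L) (ω : V →ₗ[ℂ] V →ₗ[ℂ] ℂ) {J : Type} (W : J → Submodule ℂ V)
    (v : J → V) (d : J → ℕ) : Prop where
  alt : ∀ x, ω x x = 0
  sk : ∀ X ∈ L, Skew ω X
  sb : ∀ j, SB P ω (W j) (v j) (d j)
  hd : ∀ j, d j = 1 ∨ d j = 3
  irr : ∀ j, Irr L.toSubmodule (W j)
  nd : ∀ j, Nd ω (W j)
  orth : ∀ i j, i ≠ j → ∀ x ∈ W i, ∀ y ∈ W j, ω x y = 0
  sup : ⨆ j, W j = ⊤

/-- The blocks `i` and `k` are not isomorphic. -/
def Df (L : LieSubalgebra ℂ (Module.End ℂ V)) {J : Type} (W : J → Submodule ℂ V) (i k : J) : Prop :=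
  ∀ U : Submodule ℂ V, Stable L.toSubmodule U → ∀ w ∈ W i, ∀ w' ∈ W k, w + w' ∈ U → w ∈ U

namespace Fm

variable {P : Prin L} {J : Type} {W : J → Submodule ℂ V} {v : J → V} {d : J → ℕ}
  (H : Fm P ω W v d)
include H

theorem disj {i k : J} (hik : i ≠ k) : W i ⊓ W k = ⊥ := by
  rw [eq_bot_iff]
  rintro x ⟨hx, hx'⟩
  rw [Submodule.mem_bot]
  refine H.nd i x hx fun w hw => ?_
  have h1 := H.orth i k hik w hw x hx'
  rw [anti H.alt, h1, neg_zero]

theorem val01 {π : L →ₗ[ℂ] L} (C : Cen L π) (i : J) : Val P π (W i) 0 ∨ Val P π (W i) 1 := by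
  obtain ⟨b, hb, h⟩ := (H.sb i).exists_val C
  rcases hb with rfl | rfl
  · exact Or.inl h
  · exact Or.inr h

theorem not01 {π : L →ₗ[ℂ] L} {i : J} (h0 : Val P π (W i) 0) (h1 : Val P π (W i) 1) : False :=
  zero_ne_one ((H.sb i).val_uniq h0 h1)

/-- Strings which are not separated. -/
theorem ker_le [LieAlgebra.IsKilling ℂ L] {i k : J}
    (h : ∀ π : L →ₗ[ℂ] L, Cen L π → (Val P π (W i) 1 ↔ Val P π (W k) 1)) (x : L)
    (hx : ∀ w ∈ W i, x.1 w = 0) : ∀ w ∈ W k, x.1 w = 0 := by
  obtain ⟨q, C, hq1, hq2⟩ := exists_cen (kerI (H.irr i).st)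
  have h0 : Val P q (W i) 0 := by
    refine ⟨fun w hw => ?_, fun w hw => ?_, fun w hw => ?_⟩
    · rw [zero_smul]; exact (mem_kerI _).1 (hq1 P.f) w hw
    · rw [zero_smul]; exact (mem_kerI _).1 (hq1 P.h) w hw
    · rw [zero_smul]; exact (mem_kerI _).1 (hq1 P.e) w hw
  have h1 : Val P q (W k) 0 := by
    refine (H.val01 C k).resolve_right fun h1 => ?_
    exact H.not01 h0 ((h q C).2 h1)
  have h2 := val_zero (H.irr k) (H.nd k) H.sk C h1 x
  rw [hq2 x ((mem_kerI _).2 hx)] at h2
  exact h2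

/-- Blocks of the same dimension which are not separated are isomorphic. -/
theorem fib_eq [LieAlgebra.IsKilling ℂ L] {i k : J} (hm : i ≠ k → Df L W i k)
    (h1 : ∀ π : L →ₗ[ℂ] L, Cen L π → (Val P π (W i) 1 ↔ Val P π (W k) 1)) (hd : d i = d k) :
    i = k := by
  by_contra hne
  have B := H.sb i
  have B' : SB P ω (W k) (v k) (d i) := by
    rw [hd]
    exact H.sb k
  exact no_twin B B' (H.hd i) (fun x => ⟨H.ker_le h1 x, H.ker_le (fun π' C' => (h1 π' C').symm) x⟩)
    (H.disj hne) fun U hU w hw w' hw' => hm hne U hU w hw w' hw'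

/-- A set of representatives of the blocks up to separation. -/
theorem reps [LieAlgebra.IsKilling ℂ L] (B : Finset J)
    (hm : ∀ i ∈ B, ∀ k ∈ B, i ≠ k → Df L W i k) :
    ∃ S ⊆ B, B.card ≤ 2 * S.card ∧ ∀ s ∈ S, ∃ π : L →ₗ[ℂ] L, Cen L π ∧ Val P π (W s) 1 ∧
      ∀ t ∈ S, t ≠ s → Val P π (W t) 0 := by
  classical
  rcases B.eq_empty_or_nonempty with rfl | ⟨j0, hj0⟩
  · exact ⟨∅, le_rfl, by simp, fun s hs => absurd hs (Finset.notMem_empty s)⟩
  have : Nonempty J := ⟨j0⟩
  let f : J → Set (L →ₗ[ℂ] L) := fun j => {π | Cen L π ∧ Val P π (W j) 1}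
  have hfib : B.card ≤ 2 * (B.image f).card := by
    refine Finset.card_le_mul_card_image B 2 fun y _ => ?_
    have h1 : Set.InjOn d ((B.filter fun j => f j = y : Finset J) : Set J) := by
      intro i hi k hk hik
      have e1 : f i = y := (Finset.mem_filter.1 hi).2
      have e2 : f k = y := (Finset.mem_filter.1 hk).2
      refine H.fib_eq (hm i (Finset.mem_filter.1 hi).1 k (Finset.mem_filter.1 hk).1)
        (fun π C => ?_) hik
      have e3 : π ∈ f i ↔ π ∈ f k := by rw [e1, e2]
      exact ⟨fun h => (e3.1 ⟨C, h⟩).2, fun h => (e3.2 ⟨C, h⟩).2⟩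
    calc (B.filter fun j => f j = y).card ≤ ({1, 3} : Finset ℕ).card := by
          refine Finset.card_le_card_of_injOn d (fun j _ => ?_) h1
          rcases H.hd j with h | h
          · change d j ∈ _
            rw [h]
            simp
          · change d j ∈ _
            rw [h]
            simp
      _ ≤ 2 := by decide
  have hg : ∀ y ∈ B.image f, ∃ j ∈ B, f j = y := fun y hy => Finset.mem_image.1 hy
  choose! g hg1 hg2 using hg
  have hinj : Set.InjOn g ((B.image f : Finset (Set (L →ₗ[ℂ] L))) : Set (Set (L →ₗ[ℂ] L))) := by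
    intro y hy z hz hyz
    rw [← hg2 y hy, ← hg2 z hz, hyz]
  refine ⟨(B.image f).image g, ?_, ?_, ?_⟩
  · intro j hj
    obtain ⟨y, hy, rfl⟩ := Finset.mem_image.1 hj
    exact hg1 y hy
  · rw [Finset.card_image_of_injOn hinj]
    exact hfib
  intro s hs
  have hsep : ∀ t ∈ (B.image f).image g, t ≠ s → ∃ π : L →ₗ[ℂ] L, Cen L π ∧ Val P π (W s) 1 ∧
      Val P π (W t) 0 := by
    intro t ht hts
    obtain ⟨y, hy, rfl⟩ := Finset.mem_image.1 hs
    obtain ⟨z, hz, rfl⟩ := Finset.mem_image.1 ht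
    have hyz : f (g z) ≠ f (g y) := by
      rw [hg2 y hy, hg2 z hz]
      rintro rfl
      exact hts rfl
    by_contra hcon
    push Not at hcon
    apply hyz
    ext π
    constructor
    · rintro ⟨C, h⟩
      refine ⟨C, (H.val01 C _).resolve_left fun h0 => ?_⟩
      have h2 := h.compl
      have h3 := h0.compl
      rw [sub_self] at h2
      rw [sub_zero] at h3
      exact hcon _ C.compl h3 h2
    · rintro ⟨C, h⟩
      exact ⟨C, (H.val01 C _).resolve_left fun h0 => hcon π C h h0⟩
  have key : ∀ T : Finset J, T ⊆ (B.image f).image g → s ∉ T → ∃ π : L →ₗ[ℂ] L, Cen L π ∧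
      Val P π (W s) 1 ∧ ∀ t ∈ T, Val P π (W t) 0 := by
    intro T
    induction T using Finset.induction_on with
    | empty =>
      intro _ _
      refine ⟨LinearMap.id, ⟨fun _ => rfl, fun _ _ => rfl⟩, ⟨fun w _ => ?_, fun w _ => ?_,
        fun w _ => ?_⟩, fun t ht => absurd ht (Finset.notMem_empty t)⟩
      · rw [one_smul]; rfl
      · rw [one_smul]; rfl
      · rw [one_smul]; rfl
    | insert t T ht ih =>
      intro hT hsT
      rw [Finset.mem_insert, not_or] at hsT
      obtain ⟨π, C, h1, h0⟩ := ih (fun x hx => hT (Finset.mem_insert_of_mem hx)) hsT.2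
      obtain ⟨π', C', h1', h0'⟩ := hsep t (hT (Finset.mem_insert_self t T)) (Ne.symm hsT.1)
      refine ⟨π ∘ₗ π', C.mul C', ?_, fun u hu => ?_⟩
      · have := (H.sb s).val_mul C C' h1 h1'
        rwa [mul_one] at this
      · rcases Finset.mem_insert.1 hu with rfl | hu
        · obtain ⟨b, _, hb⟩ := (H.sb u).exists_val C
          have := (H.sb u).val_mul C C' hb h0'
          rwa [mul_zero] at this
        · obtain ⟨b, _, hb⟩ := (H.sb u).exists_val C'
          have := (H.sb u).val_mul C C' (h0 u hu) hb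
          rwa [zero_mul] at this
  obtain ⟨π, C, h1, h0⟩ := key (((B.image f).image g).erase s) (Finset.erase_subset _ _)
    (Finset.notMem_erase s _)
  exact ⟨π, C, h1, fun t ht hts => h0 t (Finset.mem_erase.2 ⟨hts, ht⟩)⟩

/-- The space is generated by vectors of odd weights. -/
theorem span_odd : (⊤ : Submodule ℂ V) ≤
    Submodule.span ℂ {w | ∃ n : ℤ, Odd n ∧ P.oh w = (n : ℂ) • w} := by
  rw [← H.sup]
  refine iSup_le fun j w hw => ?_
  rw [(H.sb j).full w hw, Str.prj_apply]
  refine Submodule.sum_mem _ fun i _ => Submodule.smul_mem _ _ (Submodule.subset_span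
    ⟨(d j : ℤ) - 2 * i, ?_, ?_⟩)
  · have h1 := (H.sb j).str.odd
    obtain ⟨k, hk⟩ := h1
    exact ⟨(k : ℤ) - i, by rw [hk]; push_cast; ring⟩
  · rw [(H.sb j).sl.h_pow (H.sb j).str.hv i]
    congr 1
    push_cast
    ring

/-- The neutral element of the triple acts injectively. -/
theorem oh_inj {z : V} (hz : P.oh z = 0) : z = 0 := by
  classical
  obtain ⟨b, hb1, hb2, hb3⟩ := Submodule.exists_fun_fin_finrank_span_eq ℂ
    {w : V | ∃ n : ℤ, Odd n ∧ P.oh w = (n : ℂ) • w}
  let B : Basis _ ℂ V := Basis.mk hb3 (hb2.symm ▸ H.span_odd)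
  choose n hn hn' using hb1
  have hB : ∀ k, B k = b k := fun k => Basis.mk_apply hb3 _ k
  have h1 : ∀ k, B.coord k (P.oh z) = (n k : ℂ) * B.coord k z := by
    intro k
    have h2 : (B.coord k).comp P.oh = (n k : ℂ) • B.coord k := by
      refine B.ext fun l => ?_
      rw [LinearMap.comp_apply, hB, hn' l, ← hB, map_smul, LinearMap.smul_apply, smul_eq_mul,
        smul_eq_mul, Basis.coord_apply, Basis.repr_self]
      by_cases h : l = k
      · rw [h]
      · rw [Finsupp.single_eq_of_ne (Ne.symm h), mul_zero, mul_zero]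
    exact LinearMap.congr_fun h2 z
  refine B.ext_elem fun k => ?_
  have h2 := h1 k
  rw [hz, map_zero] at h2
  have h3 : (n k : ℂ) ≠ 0 := by
    intro h4
    have h5 : n k = 0 := by exact_mod_cast h4
    have h6 := hn k
    rw [h5] at h6
    exact absurd h6 (by decide)
  have h4 := (mul_eq_zero.1 h2.symm).resolve_left h3
  rw [map_zero, Finsupp.zero_apply]
  exact h4

/-- Multilinear forms in an odd number of variables which are annihilated are zero. -/
theorem odd_zero {κ : Type} [Fintype κ] [DecidableEq κ] (hodd : Odd (Fintype.card κ))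
    (α : MultilinearMap ℂ (fun _ : κ => V) ℂ)
    (hα : ∀ x : κ → V, ∑ l, α (update x l (P.oh (x l))) = 0) : α = 0 := by
  classical
  obtain ⟨b, hb1, hb2, hb3⟩ := Submodule.exists_fun_fin_finrank_span_eq ℂ
    {w : V | ∃ n : ℤ, Odd n ∧ P.oh w = (n : ℂ) • w}
  let B : Basis _ ℂ V := Basis.mk hb3 (hb2.symm ▸ H.span_odd)
  choose n hn hn' using hb1
  have hB : ∀ k, B k = b k := fun k => Basis.mk_apply hb3 _ k
  refine Basis.ext_multilinear (fun _ => B) fun I => ?_
  rw [zero_apply]
  have h1 := hα fun l => B (I l)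
  have h2 : ∀ l, α (update (fun l => B (I l)) l (P.oh (B (I l)))) =
      (n (I l) : ℂ) * α fun l => B (I l) := by
    intro l
    rw [hB, hn', ← hB, α.map_update_smul, update_eq_self, smul_eq_mul]
  rw [Finset.sum_congr rfl fun l _ => h2 l, ← Finset.sum_mul] at h1
  refine (mul_eq_zero.1 h1).resolve_left fun h3 => ?_
  have h4 : ∑ l, n (I l) = 0 := by exact_mod_cast h3
  have h5 : ∀ s : Finset κ, (Odd (∑ l ∈ s, n (I l)) ↔ Odd s.card) := by
    intro s
    induction s using Finset.induction_on with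
    | empty => simp
    | insert a s ha ih =>
      rw [Finset.sum_insert ha, Finset.card_insert_of_notMem ha, Int.odd_add, Nat.odd_add_one]
      constructor
      · intro h
        have := h.1 (hn _)
        rw [← Int.not_odd_iff_even, ih] at this
        exact this
      · intro h
        refine ⟨fun _ => ?_, fun _ => hn _⟩
        rw [← Int.not_odd_iff_even, ih]
        exact h
  have h6 := (h5 Finset.univ).2 (by rwa [Finset.card_univ])
  rw [h4] at h6
  exact absurd h6 (by decide)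

end Fm

end Pool.Agent.L0h12.GT
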