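import Pool.Agent.L0h12.GT.BadG
import Pool.Agent.L0h12.FT.Fr

set_option autoImplicit false
set_option linter.unusedSectionVars false
set_option linter.unusedVariables false

/-!
# The idempotent of a structure, with multiplicities
-/

open Module Function TensorProduct

noncomputable section

namespace Pool.Agent.L0h12.GT

open Pool.Agent.Y102 Pool.Agent.W516.DR Pool.Agent.H204R3.GP Pool.Agent.W516.KC
  Pool.Agent.H204R3.SP Pool.Agent.N192.GP Pool.Agent.L0h12.FF Pool.Agent.L0h12.FT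

attribute [local instance 100] LieRing.ofAssociativeRing

variable {g d : ℕ} {A : AbVar g} {V : DRS d} {r : ℕ} {P : Fin r → Module.End ℚ A.H1}

/-- The central character of a block. -/
def cc (H : Sys A P) (j : FF.JJ A P) : CE A → ℂ := fun R => j.1 ⟨R.1, CE_ZZ H R.2⟩

/-- Representatives of the blocks with respect to the central characters. -/
theorem exists_rep (H : Sys A P) (B0 : Finset (FF.JJ A P)) :
    ∃ B ⊆ B0, (∀ i ∈ B, ∀ k ∈ B, cc H i = cc H k → i = k) ∧
      ∀ j ∈ B0, ∃ i ∈ B, cc H i = cc H j := by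
  classical
  rcases B0.eq_empty_or_nonempty with rfl | ⟨j0, hj0⟩
  · exact ⟨∅, le_rfl, fun i hi => absurd hi (Finset.notMem_empty i),
      fun j hj => absurd hj (Finset.notMem_empty j)⟩
  have : Nonempty (FF.JJ A P) := ⟨j0⟩
  have hg : ∀ y ∈ B0.image (cc H), ∃ j ∈ B0, cc H j = y := fun y hy => Finset.mem_image.1 hy
  choose! s hs1 hs2 using hg
  refine ⟨(B0.image (cc H)).image s, ?_, ?_, fun j hj => ?_⟩
  · intro j hj
    obtain ⟨y, hy, rfl⟩ := Finset.mem_image.1 hj
    exact hs1 y hy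
  · intro i hi k hk hik
    obtain ⟨y, hy, rfl⟩ := Finset.mem_image.1 hi
    obtain ⟨z, hz, rfl⟩ := Finset.mem_image.1 hk
    rw [hs2 y hy, hs2 z hz] at hik
    rw [hik]
  · have h1 : cc H j ∈ B0.image (cc H) := Finset.mem_image_of_mem _ hj
    exact ⟨s (cc H j), Finset.mem_image_of_mem _ h1, hs2 _ h1⟩

/-- Independent central endomorphisms which vanish on all blocks outside of `B0`. -/
theorem card_le_central (H : Sys A P) (B0 B : Finset (FF.JJ A P))
    (hrep : ∀ j ∈ B0, ∃ i ∈ B, cc H i = cc H j) {k : ℕ}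
    (f : Fin k → Module.End ℚ A.H1) (hli : LinearIndependent ℚ f) (hf : ∀ i, f i ∈ CE A)
    (h0 : ∀ i, ∀ j ∉ B0, ∀ x ∈ EE A P j.1, (f i).baseChange ℂ x = 0) : k ≤ B.card := by
  classical
  let χ : Fin k → (B → ℂ) := fun i j => cc H j.1 ⟨f i, hf i⟩
  have h1 : LinearIndependent ℂ χ := by
    rw [Fintype.linearIndependent_iff]
    intro c hc
    refine indep_bc hli c ?_
    refine ext_G H fun j x hx => ?_
    rw [LinearMap.zero_apply, LinearMap.sum_apply]
    by_cases hj : j ∈ B0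
    · obtain ⟨i0, hi0, hij⟩ := hrep j hj
      have h2 := congrFun hc ⟨i0, hi0⟩
      rw [Finset.sum_apply] at h2
      have h3 : ∀ i, (c i • ((f i).baseChange ℂ : Module.End ℂ (ℂ ⊗[ℚ] A.H1))) x =
          (c i * χ i ⟨i0, hi0⟩) • x := by
        intro i
        have h4 : (f i).baseChange ℂ x = cc H j ⟨f i, hf i⟩ • x :=
          mem_EE.1 hx ⟨f i, CE_ZZ H (hf i)⟩
        rw [LinearMap.smul_apply, h4, smul_smul, ← hij]
      rw [Finset.sum_congr rfl fun i _ => h3 i, ← Finset.sum_smul]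
      have h4 : ∑ i, c i * χ i ⟨i0, hi0⟩ = 0 := h2
      rw [h4, zero_smul]
    · refine Finset.sum_eq_zero fun i _ => ?_
      rw [LinearMap.smul_apply, h0 i j hj x hx, smul_zero]
  have h2 := h1.fintype_card_le_finrank
  rw [Fintype.card_fin, Module.finrank_fintype_fun_eq_card, Fintype.card_coe] at h2
  exact h2

/-- **The idempotent of a structure.** -/
theorem exists_splitG (A : AbVar g) (V : DRS d) {P : Fin r → Module.End ℚ A.H1} (H : Sys A P)
    (x : Fin 4 → A.H1) (hx : Submodule.span ℚ {y | ∃ Q ∈ ZZ A P, ∃ k, y = Q (x k)} = ⊤) :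
    ∃ e ∈ CE A, e * e = e ∧ (∀ X ∈ hA A V, X * e ∈ nA A V) ∧ (∀ N ∈ nA A V, N * e = N) ∧
      (hA A V ≤ nA A V → e = 1) ∧
      ∀ (k : ℕ) (f : Fin k → Module.End ℚ A.H1), LinearIndependent ℚ f → (∀ i, f i ∈ CE A) →
        (∀ i, f i * e = 0) → k ≤ d := by
  classical
  obtain ⟨hK, p, v, dd, F⟩ := fmG (fullA A V) H (fun j => finrank_leG H x hx j)
  obtain ⟨inst, _⟩ := H.card_JJ
  obtain ⟨q, C, hq1, hq2⟩ := exists_cen (KI (fullA A V) (idlA A V))
  obtain ⟨e, he, hee, h1, h2, h3, h4⟩ := exists_idemG H F C hq1 hq2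
  refine ⟨e, he, hee, h1, h2, fun hle => ?_, fun k f hli hf hfe => ?_⟩
  · have h5 : ∀ j : FF.JJ A P, Val p q (EE A P j.1) 1 := by
      intro j
      have h6 : ∀ x : LH (fullA A V), q x = x := fun x => hq2 x (cx_mono hle x.2)
      refine ⟨fun w hw => ?_, fun w hw => ?_, fun w hw => ?_⟩
      · rw [h6, one_smul]; rfl
      · rw [h6, one_smul]; rfl
      · rw [h6, one_smul]; rfl
    have h6 : (e.baseChange ℂ : Module.End ℂ (ℂ ⊗[ℚ] A.H1)) = 1 :=
      ext_G H fun j x hx => h3 j (h5 j) x hx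
    obtain ⟨lam, hlam⟩ := exists_lam
    have h7 : (e.baseChange ℂ : Module.End ℂ (ℂ ⊗[ℚ] A.H1)) =
        (1 : Module.End ℚ A.H1).baseChange ℂ := by
      rw [h6]
      exact (LinearMap.baseChange_id (R := ℚ) (A := ℂ) (M := A.H1)).symm
    have h8 := congrArg (cmpE lam) h7
    rwa [cmp_bc _ hlam, cmp_bc _ hlam] at h8
  · let B0 : Finset (FF.JJ A P) := Finset.univ.filter fun j => Val p q (EE A P j.1) 0
    obtain ⟨B, hBB, hB1, hB2⟩ := exists_rep H B0
    have hB := bad_leG F (perfG (fullA A V) H) C hq2 B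
      (fun j hj => (Finset.mem_filter.1 (hBB hj)).2) fun i hi k hk hik => by
        have h5 : cc H i ≠ cc H k := fun h => hik (hB1 i hi k hk h)
        obtain ⟨R, hR⟩ := Function.ne_iff.1 h5
        exact dfG (fullA A V) H R.2 hR
    refine (card_le_central H B0 B hB2 f hli hf fun i j hj x hx => ?_).trans hB
    have h5 : Val p q (EE A P j.1) 1 := (F.val01 C j).resolve_left fun h =>
      hj (Finset.mem_filter.2 ⟨Finset.mem_univ _, h⟩)
    have h6 : ((f i * e).baseChange ℂ : Module.End ℂ (ℂ ⊗[ℚ] A.H1)) x = 0 := by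
      rw [hfe, LinearMap.baseChange_zero, LinearMap.zero_apply]
    rwa [bc_mul, Module.End.mul_apply, h3 j h5 x hx] at h6

end Pool.Agent.L0h12.GT
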