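import Pool.Agent.L0h12.GT.BlkG
import Pool.Agent.L0h12.FT.Rat

set_option autoImplicit false
set_option linter.unusedSectionVars false
set_option linter.unusedVariables false

/-!
# The idempotent of an ideal, with multiplicities
-/

open Module Function Polynomial TensorProduct

noncomputable section

namespace Pool.Agent.L0h12.GT

open Pool.Agent.Y102 Pool.Agent.W516.DR Pool.Agent.H204R3.GP Pool.Agent.W516.KC
  Pool.Agent.H204R3.SP Pool.Agent.L0h12.FF Pool.Agent.L0h12.FT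
open Pool.Agent.N192.GP (brk Idl)

attribute [local instance 100] LieRing.ofAssociativeRing

variable {g : ℕ} {A : AbVar g} {𝔥 𝔫 : Submodule ℚ (Module.End ℚ A.H1)} {r : ℕ}
  {P : Fin r → Module.End ℚ A.H1}

variable {hF : A.Full 𝔥} {hI : Idl 𝔫 𝔥} (H : Sys A P) {p : Prin (LH hF)}
  {v : FF.JJ A P → ℂ ⊗[ℚ] A.H1} {d : FF.JJ A P → ℕ}
  (F : Fm p (omC A) (fun j : FF.JJ A P => EE A P j.1) v d)
  {q : LH hF →ₗ[ℂ] LH hF} (C : Cen (LH hF) q)

include F C in
theorem q_idG (j : FF.JJ A P) (h : Val p q (EE A P j.1) 1) (x : LH hF) :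
    ∀ w ∈ EE A P j.1, (q x).1 w = x.1 w := by
  intro w hw
  have h1 : Val p (LinearMap.id - q) (EE A P j.1) 0 := by
    have := h.compl
    rwa [sub_self] at this
  have h2 := val_zero (F.irr j) (F.nd j) F.sk C.compl h1 x w hw
  change x.1 w - (q x).1 w = 0 at h2
  exact (sub_eq_zero.1 h2).symm

include F C in
theorem q_zeroG (j : FF.JJ A P) (h : Val p q (EE A P j.1) 0) (x : LH hF) :
    ∀ w ∈ EE A P j.1, (q x).1 w = 0 := val_zero (F.irr j) (F.nd j) F.sk C h x

include H F C in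
/-- **The idempotent of an ideal.** -/
theorem exists_idemG (hq1 : ∀ x, q x ∈ KI hF hI) (hq2 : ∀ x ∈ KI hF hI, q x = x) :
    ∃ e ∈ CE A, e * e = e ∧ (∀ X ∈ 𝔥, X * e ∈ 𝔫) ∧ (∀ N ∈ 𝔫, N * e = N) ∧
      (∀ j : FF.JJ A P, Val p q (EE A P j.1) 1 → ∀ x ∈ EE A P j.1, e.baseChange ℂ x = x) ∧
      ∀ j : FF.JJ A P, Val p q (EE A P j.1) 0 → ∀ x ∈ EE A P j.1, e.baseChange ℂ x = 0 := by
  classical
  let G : Submodule ℂ (ℂ ⊗[ℚ] A.H1) :=
    ⨆ j : {j : FF.JJ A P // Val p q (EE A P j.1) 1}, EE A P j.1.1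
  let B : Submodule ℂ (ℂ ⊗[ℚ] A.H1) :=
    ⨆ j : {j : FF.JJ A P // Val p q (EE A P j.1) 0}, EE A P j.1.1
  have hG : ∀ j : FF.JJ A P, Val p q (EE A P j.1) 1 → EE A P j.1 ≤ G := fun j hj =>
    le_iSup (fun j : {j : FF.JJ A P // Val p q (EE A P j.1) 1} => EE A P j.1.1) ⟨j, hj⟩
  have hB : ∀ j : FF.JJ A P, Val p q (EE A P j.1) 0 → EE A P j.1 ≤ B := fun j hj =>
    le_iSup (fun j : {j : FF.JJ A P // Val p q (EE A P j.1) 0} => EE A P j.1.1) ⟨j, hj⟩
  have horth : ∀ x ∈ G, ∀ y ∈ B, omC A x y = 0 := by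
    intro x hx y hy
    induction hx using Submodule.iSup_induction' with
    | mem i x hx =>
      induction hy using Submodule.iSup_induction' with
      | mem k y hy =>
        refine F.orth i.1 k.1 (fun h => ?_) x hx y hy
        have h1 := i.2
        rw [h] at h1
        exact F.not01 k.2 h1
      | zero => rw [map_zero]
      | add a b _ _ ha hb => rw [map_add, ha, hb, add_zero]
    | zero => rw [map_zero, LinearMap.zero_apply]
    | add a b _ _ ha hb => rw [map_add, LinearMap.add_apply, ha, hb, add_zero]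
  have hall : ∀ z : ℂ ⊗[ℚ] A.H1, z ∈ G ⊔ B := by
    intro z
    have hz : z ∈ ⨆ i : FF.JJ A P, EE A P i.1 := by rw [H.iSup_JJ]; trivial
    induction hz using Submodule.iSup_induction' with
    | mem i z hz =>
      rcases F.val01 C i with h | h
      · exact Submodule.mem_sup_right (hB i h hz)
      · exact Submodule.mem_sup_left (hG i h hz)
    | zero => exact Submodule.zero_mem _
    | add a b _ _ ha hb => exact Submodule.add_mem _ ha hb
  have hcompl : IsCompl G B := by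
    refine ⟨?_, ?_⟩
    · rw [Submodule.disjoint_def]
      intro x hx hx'
      apply omC_nondeg
      intro y
      obtain ⟨y1, h1, y2, h2, rfl⟩ := Submodule.mem_sup.1 (hall y)
      rw [map_add, horth x hx y2 h2, add_zero, omC_anti, horth y1 h1 x hx', neg_zero]
    · rw [codisjoint_iff, Submodule.eq_top_iff']
      exact hall
  let T : Module.End ℂ (ℂ ⊗[ℚ] A.H1) := Submodule.projection _ _ hcompl
  have hT1 : ∀ j : FF.JJ A P, Val p q (EE A P j.1) 1 → ∀ x ∈ EE A P j.1, T x = x :=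
    fun j hj x hx => Submodule.projection_apply_of_mem_left hcompl (hG j hj hx)
  have hT0 : ∀ j : FF.JJ A P, Val p q (EE A P j.1) 0 → ∀ x ∈ EE A P j.1, T x = 0 :=
    fun j hj x hx => (Submodule.projection_apply_eq_zero_iff hcompl).2 (hB j hj hx)
  have hTq : ∀ x : LH hF, (q x).1 = x.1 * T := by
    intro x
    refine ext_G H fun j w hw => ?_
    rw [Module.End.mul_apply]
    rcases F.val01 C j with h | h
    · rw [hT0 j h w hw, map_zero, q_zeroG F C j h x w hw]
    · rw [hT1 j h w hw, q_idG F C j h x w hw]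
  have hTc : ∀ x : LH hF, x.1 * T = T * x.1 := by
    intro x
    refine ext_G H fun j w hw => ?_
    rw [Module.End.mul_apply, Module.End.mul_apply]
    have hxw := (F.irr j).st x.1 x.2 w hw
    rcases F.val01 C j with h | h
    · rw [hT0 j h w hw, map_zero, hT0 j h _ hxw]
    · rw [hT1 j h w hw, hT1 j h _ hxw]
  -- the projection commutes with the endomorphisms
  have hTE : ∀ Q ∈ A.EA, T * Q.baseChange ℂ = Q.baseChange ℂ * T := by
    intro Q hQ
    have hc : ∀ x : LH hF, Q.baseChange ℂ * x.1 = x.1 * Q.baseChange ℂ := fun x =>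
      cx_comm (S := 𝔥) (fun Y hY => by
        rw [← bc_mul, ← bc_mul]
        congr 1
        exact (H_comm hF hY hQ).symm) x.1 x.2
    refine LinearMap.ext fun w => ?_
    rw [← sub_eq_zero]
    refine F.oh_inj ?_
    have e1 := LinearMap.congr_fun (hc (q p.h)) w
    have e2 := LinearMap.congr_fun (hc p.h) (T w)
    rw [hTq] at e1
    simp only [Module.End.mul_apply] at e1 e2 ⊢
    rw [map_sub]
    change p.h.1 (T (Q.baseChange ℂ w)) - p.h.1 (Q.baseChange ℂ (T w)) = 0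
    rw [← e1, ← e2, sub_self]
  obtain ⟨lam, hlam⟩ := exists_lam
  have he0 : cmpE lam T ∈ A.EA := by
    refine commH hF fun X hX => ?_
    exact (comm_cmp (hTc ⟨X.baseChange ℂ, bc_mem hX⟩).symm lam).symm
  have he : cmpE lam T ∈ CE A := ⟨he0, fun Q hQ => comm_cmp (hTE Q hQ) lam⟩
  have h1 : ∀ X ∈ 𝔥, X * cmpE lam T ∈ 𝔫 := by
    intro X hX
    rw [← mul_cmp]
    refine cmp_of_ext 𝔫 ?_ lam
    have h2 := hq1 ⟨X.baseChange ℂ, bc_mem hX⟩
    rw [mem_KI, hTq] at h2
    exact h2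
  have h2 : ∀ N ∈ 𝔫, N * cmpE lam T = N := by
    intro N hN
    rw [← mul_cmp]
    have h3 := congrArg Subtype.val (hq2 ⟨N.baseChange ℂ, bc_mem (hI.1 hN)⟩ (bc_mem hN))
    rw [hTq] at h3
    rw [h3, cmp_bc N hlam]
  have he' : cmpE lam T ∈ ZZ A P := CE_ZZ H he
  -- the action on the blocks
  have hbk : ∀ j : FF.JJ A P, ∀ x ∈ EE A P j.1,
      (cmpE lam T).baseChange ℂ x = j.1 ⟨_, he'⟩ • x := fun j x hx => mem_EE.1 hx ⟨_, he'⟩
  have cxn : ∀ N ∈ cx 𝔫, N * (cmpE lam T).baseChange ℂ = N := by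
    intro N hN
    induction hN using Submodule.span_induction with
    | mem N hN =>
      obtain ⟨N, hN, rfl⟩ := hN
      rw [← bc_mul, h2 N hN]
    | zero => rw [zero_mul]
    | add a b _ _ ha hb => rw [add_mul, ha, hb]
    | smul c a _ ha => rw [smul_mul_assoc, ha]
  have cxh : ∀ X ∈ cx 𝔥, X * (cmpE lam T).baseChange ℂ ∈ cx 𝔫 := by
    intro X hX
    induction hX using Submodule.span_induction with
    | mem X hX =>
      obtain ⟨X, hX, rfl⟩ := hX
      rw [← bc_mul]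
      exact bc_mem (h1 X hX)
    | zero => rw [zero_mul]; exact Submodule.zero_mem _
    | add a b _ _ ha hb => rw [add_mul]; exact Submodule.add_mem _ ha hb
    | smul c a _ ha => rw [smul_mul_assoc]; exact Submodule.smul_mem _ _ ha
  have hb1 : ∀ j : FF.JJ A P, Val p q (EE A P j.1) 1 → j.1 ⟨_, he'⟩ = 1 := by
    intro j hj
    have h3 := LinearMap.congr_fun (cxn _ (hq1 p.h)) (v j)
    rw [Module.End.mul_apply, hbk j _ (F.sb j).str.mem, map_smul,
      q_idG F C j hj p.h _ (F.sb j).str.mem] at h3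
    have h4 : (j.1 ⟨_, he'⟩ - 1) • p.oh (v j) = 0 := by
      rw [sub_smul, one_smul]
      exact sub_eq_zero.2 h3
    exact sub_eq_zero.1 ((smul_eq_zero.1 h4).resolve_right (F.sb j).hv0)
  have hb0 : ∀ j : FF.JJ A P, Val p q (EE A P j.1) 0 → j.1 ⟨_, he'⟩ = 0 := by
    intro j hj
    have h3 := cxh _ p.h.2
    have h4 : (⟨_, cx_mono hI.1 h3⟩ : LH hF) ∈ KI hF hI := h3
    have h5 := q_zeroG F C j hj ⟨_, cx_mono hI.1 h3⟩ (v j) (F.sb j).str.mem
    rw [hq2 _ h4] at h5
    change (p.h.1 * (cmpE lam T).baseChange ℂ) (v j) = 0 at h5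
    rw [Module.End.mul_apply, hbk j _ (F.sb j).str.mem, map_smul] at h5
    exact (smul_eq_zero.1 h5).resolve_right (F.sb j).hv0
  refine ⟨cmpE lam T, he, ?_, h1, h2, fun j hj x hx => ?_, fun j hj x hx => ?_⟩
  · have h3 : ((cmpE lam T * cmpE lam T).baseChange ℂ : Module.End ℂ (ℂ ⊗[ℚ] A.H1)) =
        (cmpE lam T).baseChange ℂ := by
      refine ext_G H fun j w hw => ?_
      rw [bc_mul, Module.End.mul_apply, hbk j w hw, map_smul, hbk j w hw]
      rcases F.val01 C j with h | h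
      · rw [hb0 j h, zero_smul, zero_smul]
      · rw [hb1 j h, one_smul]
    have h4 := congrArg (cmpE lam) h3
    rwa [cmp_bc _ hlam, cmp_bc _ hlam] at h4
  · rw [hbk j x hx, hb1 j hj, one_smul]
  · rw [hbk j x hx, hb0 j hj, zero_smul]

end Pool.Agent.L0h12.GT
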